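import Mathlib

set_option autoImplicit false
open Filter Topology Asymptotics NormedSpace

namespace Pool.Agent.Results.MP_245269_an.Counter

/-- diagonal operators -/
noncomputable def dg (d : ℕ) : (Fin d → ℂ) →+* ((Fin d → ℂ) →L[ℂ] (Fin d → ℂ)) where
  toFun a := ContinuousLinearMap.mul ℂ (Fin d → ℂ) a
  map_one' := by ext; simp
  map_mul' a b := by ext; simp [mul_assoc]
  map_zero' := by ext; simp
  map_add' a b := by ext; simp

theorem dg_apply (d : ℕ) (a v : Fin d → ℂ) : dg d a v = a * v := rfl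

theorem dg_cont (d : ℕ) : Continuous (dg d) := (ContinuousLinearMap.mul ℂ (Fin d → ℂ)).continuous

/-- coefficients of one plus the power of z minus one -/
noncomputable def cf (m : ℕ) (j : Fin (m + 2)) : ℂ :=
  (if (j : ℕ) = 0 then 1 else 0) + (-1) ^ (m + 1 - j) * ((m + 1).choose j : ℂ)

theorem cf_poly (m : ℕ) (z : ℂ) : ∑ j : Fin (m + 2), z ^ (j : ℕ) * cf m j = 1 + (z - 1) ^ (m + 1) := by
  simp only [cf, mul_add, Finset.sum_add_distrib]
  congr 1
  · rw [Fin.sum_univ_succ]; simp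
  · rw [sub_eq_add_neg, add_pow, Finset.sum_range]
    exact Finset.sum_congr rfl fun j _ => by ring

theorem cf_mom (m k : ℕ) (h1 : 1 ≤ k) (h2 : k ≤ m) :
    ∑ j : Fin (m + 2), ((j : ℕ) : ℂ) ^ k * cf m j = 0 := by
  simp only [cf, mul_add, Finset.sum_add_distrib]
  have h3 := congrFun (fwdDiff_iter_pow_eq_zero_of_lt (R := ℂ) (j := k) (n := m + 1) (by omega)) 0
  rw [fwdDiff_iter_eq_sum_shift, Finset.sum_range] at h3
  rw [Fin.sum_univ_succ]
  simp only [Fin.val_succ, Nat.add_one_ne_zero, if_false, mul_zero, Finset.sum_const_zero, add_zero,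
    Fin.val_zero, Nat.cast_zero, zero_pow (by omega : k ≠ 0), zero_mul, zero_add]
  rw [Pi.zero_apply] at h3
  rw [← h3]
  refine Finset.sum_congr rfl fun j _ => ?_
  simp
  ring

/-- sum of coordinates -/
noncomputable def sm (d : ℕ) : (Fin d → ℂ) →L[ℂ] ℂ := ∑ j, ContinuousLinearMap.proj j

theorem sm_apply (d : ℕ) (v : Fin d → ℂ) : sm d v = ∑ j, v j := by simp [sm]

/-- the projection -/
noncomputable def pr (m : ℕ) : (Fin (m + 2) → ℂ) →L[ℂ] (Fin (m + 2) → ℂ) := (sm _).smulRight (cf m)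

theorem pr_dg (m : ℕ) (a : Fin (m + 2) → ℂ) :
    pr m * dg _ a * pr m = (∑ j, a j * cf m j) • pr m := by
  ext1 v
  simp only [pr, ContinuousLinearMap.mul_apply, ContinuousLinearMap.smulRight_apply, dg_apply,
    ContinuousLinearMap.smul_apply, smul_smul, mul_smul_comm, map_smul, sm_apply _ (a * cf m),
    Pi.mul_apply, mul_comm]

theorem sum_cf (m : ℕ) : ∑ j, cf m j = 1 := by simpa using cf_poly m 1

theorem exp_eq (m : ℕ) (lam t : ℝ) :
    exp ((t : ℂ) • (0 + (lam : ℂ) • dg (m + 2) fun j => Complex.I * ((j : ℕ) : ℂ))) =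
      dg (m + 2) fun j => Complex.exp (↑(t * lam) * Complex.I) ^ (j : ℕ) := by
  have : (t : ℂ) • (0 + (lam : ℂ) • dg (m + 2) fun j => Complex.I * ((j : ℕ) : ℂ)) =
      dg (m + 2) fun j => ((j : ℕ) : ℂ) * (↑(t * lam) * Complex.I) := by
    ext1 v; ext j
    simp [dg_apply]; ring
  rw [this, ← map_exp _ (dg_cont _), Pi.exp_def]
  congr 1
  funext j
  rw [← Complex.exp_eq_exp_ℂ, Complex.exp_nat_mul]

/-- bounded operators on the complex coordinate space with the sup norm -/
abbrev Op (d : ℕ) : Type := (Fin d → ℂ) →L[ℂ] (Fin d → ℂ)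

/-- exponential of a real multiple of an operator -/
noncomputable def ex {d : ℕ} (t : ℝ) (A : Op d) : Op d := exp ((t : ℂ) • A)

/-- the group generated by the perturbed operator -/
noncomputable def U {d : ℕ} (L0 L : Op d) (lam t : ℝ) : Op d := ex t (L0 + (lam : ℂ) • L)

/-- interaction picture -/
noncomputable def Lt {d : ℕ} (L0 L : Op d) (s : ℝ) : Op d := U L0 L 0 (-s) * L * U L0 L 0 s

/-- correlation products -/
noncomputable def corr {d : ℕ} (P L0 L : Op d) (k : ℕ) (s : Fin k → ℝ) : Op d :=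
  P * (List.ofFn fun i => Lt L0 L (s i)).prod * P

/-- operator polynomial -/
noncomputable def poly {d : ℕ} (a : ℕ) (G : ℕ → Op d) (lam : ℝ) : Op d :=
  ∑ j ∈ Finset.range (a + 1), (lam : ℂ) ^ j • G j

/-- reduced dynamics on the rescaled time -/
noncomputable def red {d : ℕ} (P L0 L : Op d) (t lam : ℝ) : Op d :=
  P * U L0 L 0 (-(t / lam ^ 2)) * U L0 L lam (t / lam ^ 2) * P

/-- error of the approximation -/
noncomputable def err {d : ℕ} (P L0 L : Op d) (a b : ℕ) (G R : ℕ → Op d) (t lam : ℝ) : ℝ :=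
  ‖red P L0 L t lam - ex t (poly a G lam) * poly b R lam‖

/-- structural hypotheses -/
def Hyp {d : ℕ} (P L0 L : Op d) : Prop :=
  P * P = P ∧ (∀ t, U L0 L 0 t * P = P * U L0 L 0 t) ∧ P * L * P = 0

theorem result (n m : ℕ) : ∃ (d : ℕ) (P L0 L : Op d),
    (∀ lam t v, ‖U L0 L lam t v‖ = ‖v‖) ∧ Hyp P L0 L ∧
    (∀ k, 1 ≤ k → k ≤ max m (n + 1) → ∀ s : Fin k → ℝ, corr P L0 L k s = 0) ∧
    ∀ (a b : ℕ) (G R : ℕ → Op d) (t : ℝ), 0 < t →
      ¬ (fun lam : ℝ => err P L0 L a b G R t lam) =O[𝓝[>] 0] fun lam : ℝ => lam ^ (2 * n + 2) := by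
  simp only [Hyp, corr, Lt, err, red, U, ex, poly, isBigO_norm_left]
  set M := max m (n + 1) with hM
  have hU0 : ∀ t : ℝ, exp ((t : ℂ) • (0 + ((0 : ℝ) : ℂ) • dg (M + 2) fun j => Complex.I * ((j : ℕ) : ℂ)))
      = 1 := by
    intro t
    rw [exp_eq, ← map_one (dg (M + 2))]
    congr 1
    funext j
    simp
  have hk : ∀ k, 1 ≤ k → k ≤ M →
      pr M * (dg (M + 2) fun j => Complex.I * ((j : ℕ) : ℂ)) ^ k * pr M = 0 := by
    intro k h1 h2
    rw [← map_pow, pr_dg]
    simp only [Pi.pow_apply, mul_pow, mul_assoc, ← Finset.mul_sum, cf_mom M k h1 h2, mul_zero]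
    ext1 v
    simp
  refine ⟨M + 2, pr M, 0, dg _ fun j => Complex.I * ((j : ℕ) : ℂ),
    fun lam t v => ?_, ⟨?_, fun t => ?_, ?_⟩, fun k h1 h2 s => ?_,
    fun a b G R t ht hO => ?_⟩
  · rw [exp_eq, dg_apply, Pi.norm_def, Pi.norm_def]
    congr 2
    funext j
    ext
    simp only [Pi.mul_apply, coe_nnnorm, norm_mul, norm_pow, Complex.norm_exp_ofReal_mul_I, one_pow,
      one_mul]
  · have := pr_dg M 1
    simpa [sum_cf] using this
  · simp only [hU0, one_mul, mul_one]
  · simpa using hk 1 le_rfl (by omega)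
  · simp only [hU0, one_mul, mul_one, List.ofFn_const, List.prod_replicate]
    exact hk k h1 h2
  · simp only [hU0, mul_one, exp_eq, pr_dg, cf_poly] at hO
    have h1 := hO.trans_tendsto (show Tendsto (fun lam : ℝ => lam ^ (2 * n + 2)) (𝓝[>] 0) (𝓝 0) from
      tendsto_nhdsWithin_of_tendsto_nhds (by
        simpa using ((continuous_pow (2 * n + 2)).tendsto (0 : ℝ))))
    letI : NormedAlgebra ℚ ((Fin (M + 2) → ℂ) →L[ℂ] (Fin (M + 2) → ℂ)) :=
      NormedAlgebra.restrictScalars ℚ ℂ _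
    have hc : Continuous fun lam : ℝ =>
        exp ((t : ℂ) • ∑ j ∈ Finset.range (a + 1), (lam : ℂ) ^ j • G j) *
          ∑ j ∈ Finset.range (b + 1), (lam : ℂ) ^ j • R j :=
      (exp_continuous.comp (by fun_prop)).mul (by fun_prop)
    have h2 := h1.add (tendsto_nhdsWithin_of_tendsto_nhds (hc.tendsto 0))
    simp only [sub_add_cancel] at h2
    have hev : Continuous fun X : (Fin (M + 2) → ℂ) →L[ℂ] (Fin (M + 2) → ℂ) => sm _ (X (cf M)) := by
      fun_prop
    have h3 := (hev.tendsto _).comp h2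
    have h4 : ∀ z : ℂ, sm _ ((z • pr M) (cf M)) = z := by
      intro z
      simp [pr, sm_apply _ (cf M), sum_cf]
    simp only [Function.comp_def, h4] at h3
    have h5 : ∀ c : ℝ, 0 < c → Tendsto (fun k : ℕ => t / (k * (2 * Real.pi) + c)) atTop (𝓝[>] 0) := by
      intro c hc
      refine tendsto_nhdsWithin_iff.mpr ⟨Tendsto.const_div_atTop (tendsto_atTop_add_const_right _ _
        (tendsto_natCast_atTop_atTop.atTop_mul_const (by positivity))) _,
        Eventually.of_forall fun k => ?_⟩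
      exact div_pos ht (by positivity)
    have h6 : ∀ c : ℝ, 0 < c → ∀ k : ℕ, Complex.exp (((t / (t / (k * (2 * Real.pi) + c)) ^ 2 *
        (t / (k * (2 * Real.pi) + c)) : ℝ) : ℂ) * Complex.I) = Complex.exp (c * Complex.I) := by
      intro c hc k
      have : t / (t / (k * (2 * Real.pi) + c)) ^ 2 * (t / (k * (2 * Real.pi) + c)) =
          k * (2 * Real.pi) + c := by
        have : 0 < k * (2 * Real.pi) + c := by positivity
        field_simp
      rw [this]
      push_cast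
      rw [add_mul, Complex.exp_add, mul_assoc, Complex.exp_nat_mul_two_pi_mul_I, one_mul]
    have h7 := h3.comp (h5 _ Real.pi_pos)
    have h8 := h3.comp (h5 _ Real.two_pi_pos)
    simp only [Function.comp_def, h6 _ Real.pi_pos, h6 _ Real.two_pi_pos, tendsto_const_nhds_iff]
      at h7 h8
    rw [← h7] at h8
    push_cast at h8
    rw [Complex.exp_two_pi_mul_I, Complex.exp_pi_mul_I] at h8
    have h9 : ((-1 - 1 : ℂ)) ^ (M + 1) = 0 := by simpa using h8.symm
    norm_num at h9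

end Pool.Agent.Results.MP_245269_an.Counter
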